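import Mathlib

set_option autoImplicit false

/-!
# Cauchy-Binet as a statement on set functions, and the link sums

`g U` is the determinant of `∑ e ∈ U, v_e w_eᵀ`.
-/

namespace Pool.Agent.H67CB

open Finset

variable {E K : Type*} [DecidableEq E] [CommRing K] {k : ℕ}

/-- The matrix `∑ e ∈ U, v_e w_eᵀ`. -/
def MM (v w : E → Fin k → K) (U : Finset E) : Matrix (Fin k) (Fin k) K :=
  Matrix.of fun i j => ∑ e ∈ U, v e i * w e j

/-- The determinant of `∑ e ∈ U, v_e w_eᵀ`. -/
def g (v w : E → Fin k → K) (U : Finset E) : K := (MM v w U).det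

/-- The term of a function. -/
private def tm (v w : E → Fin k → K) (φ : Fin k → E) : K :=
  (∏ i, v (φ i) i) * (Matrix.of fun i => w (φ i)).det

private theorem tm_zero (v w : E → Fin k → K) {φ : Fin k → E} (h : ¬ Function.Injective φ) :
    tm v w φ = 0 := by
  rw [Function.not_injective_iff] at h
  obtain ⟨i, j, hij, hne⟩ := h
  have : (Matrix.of fun i => w (φ i)).det = 0 := by
    refine Matrix.det_zero_of_row_eq hne ?_
    funext c
    simp [hij]
  rw [tm, this, mul_zero]

private theorem g_expand (v w : E → Fin k → K) (U : Finset E) :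
    g v w U = ∑ φ ∈ Fintype.piFinset (fun _ : Fin k => U), tm v w φ := by
  have h1 : MM v w U = fun i => ∑ e ∈ U, v e i • w e := by
    ext i j
    simp [MM, Finset.sum_apply]
  have h2 := (Matrix.detRowAlternating (R := K) (n := Fin k)).toMultilinearMap.map_sum_finset
    (fun (i : Fin k) (e : E) => v e i • w e) (fun _ => U)
  have h3 : g v w U = (Matrix.detRowAlternating (R := K) (n := Fin k)).toMultilinearMap
      (fun i => ∑ e ∈ U, v e i • w e) := by
    rw [g, h1]
    rfl
  rw [h3, h2]
  refine Finset.sum_congr rfl fun φ _ => ?_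
  rw [MultilinearMap.map_smul_univ, smul_eq_mul]
  rfl

private theorem g_inj (v w : E → Fin k → K) (U : Finset E) :
    g v w U = ∑ φ ∈ (Fintype.piFinset (fun _ : Fin k => U)).filter Function.Injective,
      tm v w φ := by
  classical
  rw [g_expand, Finset.sum_filter]
  refine Finset.sum_congr rfl fun φ _ => ?_
  split_ifs with h
  · rfl
  · exact tm_zero v w h

/-- **Cauchy-Binet.** -/
theorem cauchy_binet (v w : E → Fin k → K) (U : Finset E) :
    g v w U = ∑ A ∈ U.powersetCard k, g v w A := by
  classical
  rw [g_inj, ← Finset.sum_fiberwise_of_maps_to (t := U.powersetCard k)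
    (g := fun φ : Fin k → E => Finset.univ.image φ)]
  · refine Finset.sum_congr rfl fun A hA => ?_
    rw [g_inj]
    rw [Finset.mem_powersetCard] at hA
    refine Finset.sum_congr ?_ fun _ _ => rfl
    ext φ
    simp only [Finset.mem_filter, Fintype.mem_piFinset]
    constructor
    · rintro ⟨⟨h1, h2⟩, h3⟩
      refine ⟨fun i => ?_, h2⟩
      rw [← h3]
      exact Finset.mem_image_of_mem φ (Finset.mem_univ i)
    · rintro ⟨h1, h2⟩
      refine ⟨⟨fun i => hA.1 (h1 i), h2⟩, ?_⟩
      refine Finset.eq_of_subset_of_card_le ?_ ?_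
      · intro x hx
        obtain ⟨i, -, rfl⟩ := Finset.mem_image.1 hx
        exact h1 i
      · rw [Finset.card_image_of_injective _ h2, hA.2, Finset.card_univ, Fintype.card_fin]
  · intro φ hφ
    simp only [Finset.mem_filter, Fintype.mem_piFinset] at hφ
    rw [Finset.mem_powersetCard]
    refine ⟨?_, ?_⟩
    · intro x hx
      obtain ⟨i, -, rfl⟩ := Finset.mem_image.1 hx
      exact hφ.1 i
    · rw [Finset.card_image_of_injective _ hφ.2, Finset.card_univ, Fintype.card_fin]

theorem g_small (v w : E → Fin k → K) {D : Finset E} (hD : D.card < k) : g v w D = 0 := by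
  rw [cauchy_binet, Finset.powersetCard_eq_empty.2 hD, Finset.sum_empty]

theorem g_compl [Fintype E] {v w : E → Fin k → K} (hrel : ∀ i j, ∑ e, v e i * w e j = 0)
    {D : Finset E} (hD : D.card < k) : g v w Dᶜ = 0 := by
  have h1 : MM v w Dᶜ = -MM v w D := by
    ext i j
    have h2 := Finset.sum_add_sum_compl D (fun e => v e i * w e j)
    rw [hrel i j] at h2
    simp only [MM, Matrix.of_apply, Matrix.neg_apply]
    exact eq_neg_of_add_eq_zero_right h2
  rw [g, h1, Matrix.det_neg]
  have h3 := g_small v w hD
  rw [g] at h3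
  rw [h3, mul_zero]

private theorem link_aux [Fintype E] {v w : E → Fin k → K}
    (hrel : ∀ i j, ∑ e, v e i * w e j = 0) (C : Finset E) :
    ∀ D : Finset E, C.card + D.card < k →
      ∑ A ∈ (Dᶜ.powersetCard k).filter (fun A => C ⊆ A), g v w A = 0 := by
  induction C using Finset.induction_on with
  | empty =>
    intro D hD
    have h1 : (Dᶜ.powersetCard k).filter (fun A => ∅ ⊆ A) = Dᶜ.powersetCard k := by
      refine Finset.filter_true_of_mem fun A _ => Finset.empty_subset A
    rw [h1, ← cauchy_binet]
    exact g_compl hrel (by simpa using hD)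
  | insert c C hc ih =>
    intro D hD
    rw [Finset.card_insert_of_notMem hc] at hD
    have h1 := ih D (by omega)
    have h2 := ih (insert c D) (by
      have := Finset.card_insert_le c D
      omega)
    rw [← Finset.sum_filter_add_sum_filter_not _ (fun A => c ∈ A)] at h1
    have h3 : ((Dᶜ.powersetCard k).filter (fun A => C ⊆ A)).filter (fun A => c ∈ A)
        = (Dᶜ.powersetCard k).filter (fun A => insert c C ⊆ A) := by
      ext A
      simp only [Finset.mem_filter, Finset.insert_subset_iff]
      tauto
    have h4 : ((Dᶜ.powersetCard k).filter (fun A => C ⊆ A)).filter (fun A => ¬ c ∈ A)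
        = ((insert c D)ᶜ.powersetCard k).filter (fun A => C ⊆ A) := by
      ext A
      simp only [Finset.mem_filter, Finset.mem_powersetCard]
      constructor
      · rintro ⟨⟨⟨h5, h6⟩, h7⟩, h8⟩
        refine ⟨⟨fun x hx => ?_, h6⟩, h7⟩
        have h9 := h5 hx
        rw [Finset.mem_compl] at h9 ⊢
        rw [Finset.mem_insert, not_or]
        refine ⟨?_, h9⟩
        rintro rfl
        exact h8 hx
      · rintro ⟨⟨h5, h6⟩, h7⟩
        refine ⟨⟨⟨fun x hx => ?_, h6⟩, h7⟩, fun h8 => ?_⟩
        · have h9 := h5 hx
          rw [Finset.mem_compl, Finset.mem_insert, not_or] at h9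
          exact Finset.mem_compl.2 h9.2
        · have h9 := h5 h8
          rw [Finset.mem_compl, Finset.mem_insert, not_or] at h9
          exact h9.1 rfl
    rw [h3, h4, h2, add_zero] at h1
    exact h1

/-- **The link sums vanish**, in every characteristic. -/
theorem link_sum [Fintype E] {v w : E → Fin k → K} (hrel : ∀ i j, ∑ e, v e i * w e j = 0)
    (C : Finset E) (hC : C.card < k) :
    ∑ A ∈ ((Finset.univ : Finset E).powersetCard k).filter (fun A => C ⊆ A), g v w A = 0 := by
  have h := link_aux hrel C ∅ (by simpa using hC)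
  rwa [Finset.compl_empty] at h

/-- For a set of `k` elements the determinant is a product. -/
theorem g_eq_mul (v w : E → Fin k → K) {A : Finset E} (e : Fin k ≃ A) :
    g v w A = (Matrix.of fun a => v (e a)).det * (Matrix.of fun a => w (e a)).det := by
  have h1 : MM v w A = (Matrix.of fun a => v (e a)).transpose * (Matrix.of fun a => w (e a)) := by
    ext i j
    simp only [MM, Matrix.of_apply, Matrix.mul_apply, Matrix.transpose_apply]
    rw [← Finset.sum_coe_sort A (fun x => v x i * w x j)]
    exact (e.sum_comp (fun x : A => v x i * w x j)).symm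
  rw [g, h1, Matrix.det_mul, Matrix.det_transpose]

theorem g_ne_zero_iff {K : Type*} [Field K] (v w : E → Fin k → K) {A : Finset E}
    (hA : A.card = k) : g v w A ≠ 0 ↔
      LinearIndependent K (fun a : A => v a) ∧ LinearIndependent K (fun a : A => w a) := by
  have e : Fin k ≃ A := (Fintype.equivFinOfCardEq (by simpa using hA)).symm
  rw [g_eq_mul v w e, mul_ne_zero_iff]
  have key : ∀ u : E → Fin k → K, (Matrix.of fun a => u (e a)).det ≠ 0 ↔
      LinearIndependent K (fun a : A => u a) := by
    intro u
    rw [← isUnit_iff_ne_zero, ← Matrix.isUnit_iff_isUnit_det,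
      ← Matrix.linearIndependent_rows_iff_isUnit]
    exact linearIndependent_equiv' e rfl
  rw [key v, key w]

end Pool.Agent.H67CB
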